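import Mathlib
import Pool.Agent.W763.Tr.Fin

set_option autoImplicit false

open scoped ComplexOrder

/-- **Mixing rates characterise the two alternatives for tracial states of `ℤ² ⋉ ℤ[1/6]`.**
Let `G` be the group of permutations of `ℚ` generated by `x ↦ 2 x`, `x ↦ 3 x`, `x ↦ x + 1`
(a copy of `ℤ² ⋉ ℤ[1/6]`), let `τ k` be the translation by the integer `k`, and let `φ` be a
normalised positive definite class function on `G` (a tracial state of `C*(G)`, extreme or not).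
The following are equivalent:
(1) `φ` is the indicator of the identity (the regular trace), or the translates of `φ` by the
translations in `G` span a finite-dimensional space (`φ` is conditionally finite-dimensional);
(2) for some `N ≥ 1` and every integer `m` the correlations
`φ (τ (N m (2 ^ a 3 ^ i - 2 ^ b 3 ^ j))) - |φ (τ (N m))| ^ 2` are at most
`C (1 + |a - b| + |i - j|) ^ (-1 - δ)` for some `C` and `δ > 0`;
(3) for some `N ≥ 1` and every integer `m` the sum of these correlations over `a, b < r`,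
`i, j < L` is at most `C r ^ (2 - ε) L` for some `C` and `ε > 0`. -/
theorem Pool.Agent.Results.MP_81910f_an.MixingRateTraces.result :
    ∀ (s2 s3 t : Equiv.Perm ℚ), (∀ x : ℚ, s2 x = 2 * x) → (∀ x : ℚ, s3 x = 3 * x) →
    (∀ x : ℚ, t x = x + 1) →
    ∀ (G : Subgroup (Equiv.Perm ℚ)), G = Subgroup.closure {s2, s3, t} →
    ∀ τ : ℤ → G, (∀ (k : ℤ) (x : ℚ), (τ k : Equiv.Perm ℚ) x = x + k) →
    ∀ φ : G → ℂ, φ 1 = 1 → (∀ g h : G, φ (h * g * h⁻¹) = φ g) →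
      (∀ (s : Finset G) (c : G → ℂ), 0 ≤ ∑ i ∈ s, ∑ j ∈ s, star (c j) * c i * φ (j⁻¹ * i)) →
      List.TFAE [
        φ = Set.indicator ({1} : Set G) (fun _ => (1 : ℂ)) ∨
          FiniteDimensional ℂ (Submodule.span ℂ {F : G → ℂ | ∃ n : G,
            (∃ r : ℚ, ∀ x : ℚ, (n : Equiv.Perm ℚ) x = x + r) ∧ F = fun x => φ (n * x)}),
        ∃ N : ℕ, 1 ≤ N ∧ ∀ m : ℤ, ∃ C δ : ℝ, 0 < δ ∧ ∀ a i b j : ℕ,
          ‖φ (τ (N * m * (2 ^ a * 3 ^ i - 2 ^ b * 3 ^ j))) -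
            ((‖φ (τ (N * m))‖ ^ 2 : ℝ) : ℂ)‖ ≤
            C / (1 + |(a : ℝ) - b| + |(i : ℝ) - j|) ^ (1 + δ),
        ∃ N : ℕ, 1 ≤ N ∧ ∀ m : ℤ, ∃ C ε : ℝ, 0 < ε ∧ ∀ r L : ℕ, 1 ≤ r → 1 ≤ L →
          ‖∑ a ∈ Finset.range r, ∑ i ∈ Finset.range L, ∑ b ∈ Finset.range r,
            ∑ j ∈ Finset.range L, (φ (τ (N * m * (2 ^ a * 3 ^ i - 2 ^ b * 3 ^ j))) -
              ((‖φ (τ (N * m))‖ ^ 2 : ℝ) : ℂ))‖ ≤ C * (r : ℝ) ^ (2 - ε) * L] :=
  fun _ _ _ hs2 hs3 ht _ hG _ hτ _ h1 hcl hpd =>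
    Pool.Agent.W763.Tr.main hs2 hs3 ht hG hτ h1 hcl hpd
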